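import Pool.Agent.H989R2.HO.Br
import Pool.Agent.H640R2.HO.COM
import Pool.Agent.H966R2.HO.HOM
import Pool.Agent.H758R2.HO.Red

/-!
ROOM HO (helper989), GLUE: the final inequality in coordinates gives a metric of positive sectional
curvature on `S² × S²`.
-/

open Metric
open scoped Topology ContDiff RealInnerProductSpace

noncomputable section

namespace H989H

open Pool.Agent.H821R3 H907H H966HO
open H902HO (Sym T Ops IsFrame frS frV W0 Q0 v0)

/-- a symmetric matrix as a continuous linear map -/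
def symL (w : Sym ℝ) : V3 →L[ℝ] V3 :=
  LinearMap.toContinuousLinearMap
    { toFun := fun u => vt (w.ap (tv u))
      map_add' := fun a b => by
        apply tv_inj
        simp only [tv_add, tv_vt]
        ext <;> simp [Sym.ap] <;> ring
      map_smul' := fun c a => by
        apply tv_inj
        simp only [RingHom.id_apply, tv_smul, tv_vt]
        ext <;> simp [Sym.ap] <;> ring }

theorem tv_symL (w : Sym ℝ) (u : V3) : tv (symL w u) = w.ap (tv u) := by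
  show tv (vt (w.ap (tv u))) = _
  rw [tv_vt]

theorem symL_symm (w : Sym ℝ) (a b : V3) : ⟪symL w a, b⟫ = ⟪a, symL w b⟫ := by
  rw [tv_dot, tv_dot, tv_symL, tv_symL]
  simp only [T.dot, Sym.ap]
  ring

theorem cr_cr_l (a b c : V3) : H758H.cr a (H758H.cr b c) = ⟪a, c⟫ • b - ⟪a, b⟫ • c := by
  refine H758H.ext3 ?_ ?_ ?_ <;> simp [H758H.inner3] <;> ring

/-- adding normal vectors to `γ` does not change the polynomial -/
theorem PP_normal (W Q : V3 →L[ℝ] V3) (v : V3) (e l : ℝ) (z a b γ : A6) (s t : ℝ) :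
    H902HO.PP (opsV W Q v) e l z a b (γ + (s • z.1, t • z.2)) =
      H902HO.PP (opsV W Q v) e l z a b γ := by
  set n : A6 := (s • z.1, t • z.2) with hn
  have hJn : H758H.J z n = 0 := by
    refine Prod.ext (H758H.ext3 ?_ ?_ ?_) (H758H.ext3 ?_ ?_ ?_) <;> simp [hn] <;> ring
  have hJ : H758H.J z (γ + n) = H758H.J z γ := by rw [map_add, hJn, add_zero]
  have hcr : ∀ x k k' : V3, ⟪x, H758H.cr (H758H.cr x k) k'⟫ =
      ⟪x, H758H.cr (H758H.cr x k') k⟫ := by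
    intro x k k'
    simp only [H758H.inner3, H758H.cr0, H758H.cr1, H758H.cr2]
    ring
  have hW1 : ∀ a b : A6, pr n (H758H.W1 (KV W Q v e l) (fun _ => TV v e) z
      (H758H.WK (KV W Q v e l) z a) b) =
      s * ⟪z.1, H758H.cr (H758H.cr z.1 (KV W Q v e l z (H758H.J z a)).1)
        (KV W Q v e l z (H758H.J z b)).1⟫ +
      t * ⟪z.2, H758H.cr (H758H.cr z.2 (KV W Q v e l z (H758H.J z a)).2)
        (KV W Q v e l z (H758H.J z b)).2⟫ := by
    intro a b
    have hz : ∀ k : A6, pr n (H758H.J z k) = 0 := by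
      intro k
      rw [H758H.pr_J, hJn]
      simp [pr]
    unfold H758H.W1
    have hneg : ∀ p : A6, pr n (-p) = -pr n p := fun p => H758H.pr_neg_right n p
    have hadd : ∀ p q : A6, pr n (p + q) = pr n p + pr n q := by
      intro p q
      rw [← H758H.prB_apply, ← H758H.prB_apply, ← H758H.prB_apply, map_add]
    rw [hneg, hadd, hadd, hz, hz, add_zero, add_zero, H758H.WK_apply]
    have h1 : H758H.J (-H758H.J z (KV W Q v e l z (H758H.J z a))) (KV W Q v e l z (H758H.J z b)) =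
        -H758H.J (H758H.J z (KV W Q v e l z (H758H.J z a))) (KV W Q v e l z (H758H.J z b)) := by
      rw [map_neg]; rfl
    rw [h1, hneg, neg_neg]
    simp only [pr, hn, inner_smul_left, conj_trivial, H758H.J_fst, H758H.J_snd]
  have hdiff : pr (γ + n) (H758H.W1 (KV W Q v e l) (fun _ => TV v e) z
      (H758H.WK (KV W Q v e l) z a) b) - pr (γ + n) (H758H.W1 (KV W Q v e l) (fun _ => TV v e) z
      (H758H.WK (KV W Q v e l) z b) a) = pr γ (H758H.W1 (KV W Q v e l) (fun _ => TV v e) z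
      (H758H.WK (KV W Q v e l) z a) b) - pr γ (H758H.W1 (KV W Q v e l) (fun _ => TV v e) z
      (H758H.WK (KV W Q v e l) z b) a) := by
    have hadd : ∀ p : A6, pr (γ + n) p = pr γ p + pr n p := fun p => H907H.pr_add_left _ _ _
    rw [hadd, hadd, hW1 a b, hW1 b a, hcr z.1, hcr z.2]
    ring
  unfold H902HO.PP
  simp only [b_pr, b_J, b_K, b_Wz, b_W1, hJ, hdiff]

/-- The curvature polynomial at a normal form in the coordinates of the frames. -/
theorem PP_eq_PPn (w q : Sym ℝ) (v : V3) (e l : ℝ) {x y k m : V3} (hx : ‖x‖ = 1) (hy : ‖y‖ = 1)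
    (hk : ‖k‖ = 1) (hm : ‖m‖ = 1) (hxk : ⟪x, k⟫ = 0) (hym : ⟪y, m⟫ = 0) (ca sa cb sb : ℝ) (γ : A6) :
    ∃ g1 g2 g3 g4 : ℝ,
      H902HO.PP (opsV (symL w) (symL q) v) e l (x, y) (-H758H.J (x, y) (H758H.mA y k m ca sa))
        (-H758H.J (x, y) (H758H.mB x k m cb sb)) γ =
      H902HO.PPn 0 1 (frS w (tv x) (tv (H758H.cr k x)) (tv k))
        (frS q (tv x) (tv (H758H.cr k x)) (tv k)) (frV (tv v) (tv x) (tv (H758H.cr k x)) (tv k))
        e l (frV (tv y) (tv x) (tv (H758H.cr k x)) (tv k))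
        (frV (tv (H758H.cr m y)) (tv x) (tv (H758H.cr k x)) (tv k))
        (frV (tv m) (tv x) (tv (H758H.cr k x)) (tv k)) ca sa cb sb g1 g2 g3 g4 := by
  have hxx : ⟪x, x⟫ = 1 := by rw [real_inner_self_eq_norm_sq, hx]; norm_num
  have hyy : ⟪y, y⟫ = 1 := by rw [real_inner_self_eq_norm_sq, hy]; norm_num
  -- expansion in the frame `x, k × x, k`
  have hexp : ∀ {x k : V3}, ‖x‖ = 1 → ‖k‖ = 1 → ⟪x, k⟫ = 0 → ∀ u : V3,
      u = ⟪x, u⟫ • x + ⟪H758H.cr k x, u⟫ • H758H.cr k x + ⟪k, u⟫ • k := by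
    intro x k hx hk hxk u
    have h := H758H.frame_expand hx hk hxk u
    have e1 : H758H.cr k x = -H758H.cr x k := by
      refine H758H.ext3 ?_ ?_ ?_ <;> simp <;> ring
    rw [e1, inner_neg_left, smul_neg, neg_smul, neg_neg]
    nth_rewrite 1 [h]
    abel
  set x2 := H758H.cr k x with hx2
  set y2 := H758H.cr m y with hy2
  set d1 : V3 := γ.1 - H758H.cr (symL w k) x2 with hd1
  set d2 : V3 := γ.2 - -H758H.cr (symL w m) y2 with hd2
  refine ⟨⟪x2, d1⟫, -⟪k, d1⟫, ⟪y2, d2⟫, -⟪m, d2⟫, ?_⟩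
  have hd1' := hexp hx hk hxk d1
  have hd2' := hexp hy hm hym d2
  rw [← hx2] at hd1'
  rw [← hy2] at hd2'
  -- the covectors
  have ea : -H758H.J (x, y) (H758H.mA y k m ca sa) = (ca • x2, sa • m) := by
    have h1 : H758H.cr x (ca • k) = -(ca • x2) := by
      rw [hx2]; refine H758H.ext3 ?_ ?_ ?_ <;> simp <;> ring
    have h2 : H758H.cr y (sa • H758H.cr y m) = -(sa • m) := by
      have h3 : H758H.cr y (H758H.cr y m) = -m := by
        rw [cr_cr_l, hym, hyy]; simp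
      have h4 : H758H.cr y (sa • H758H.cr y m) = sa • H758H.cr y (H758H.cr y m) := by
        refine H758H.ext3 ?_ ?_ ?_ <;> simp <;> ring
      rw [h4, h3, smul_neg]
    refine Prod.ext ?_ ?_
    · show -H758H.cr x (ca • k) = ca • x2
      rw [h1, neg_neg]
    · show -H758H.cr y (sa • H758H.cr y m) = sa • m
      rw [h2, neg_neg]
  have eb : -H758H.J (x, y) (H758H.mB x k m cb sb) = (sb • k, cb • y2) := by
    have h1 : H758H.cr y (cb • m) = -(cb • y2) := by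
      rw [hy2]; refine H758H.ext3 ?_ ?_ ?_ <;> simp <;> ring
    have h2 : H758H.cr x (sb • H758H.cr x k) = -(sb • k) := by
      have h3 : H758H.cr x (H758H.cr x k) = -k := by
        rw [cr_cr_l, hxk, hxx]; simp
      have h4 : H758H.cr x (sb • H758H.cr x k) = sb • H758H.cr x (H758H.cr x k) := by
        refine H758H.ext3 ?_ ?_ ?_ <;> simp <;> ring
      rw [h4, h3, smul_neg]
    refine Prod.ext ?_ ?_
    · show -H758H.cr x (sb • H758H.cr x k) = sb • k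
      rw [h2, neg_neg]
    · show -H758H.cr y (cb • m) = cb • y2
      rw [h1, neg_neg]
  -- the covector `γ`
  set γn : A6 := (H758H.cr (symL w k) x2 + (⟪x2, d1⟫ • x2 + -((-⟪k, d1⟫) • k)),
    -H758H.cr (symL w m) y2 + (⟪y2, d2⟫ • y2 + -((-⟪m, d2⟫) • m))) with hγn
  have eγ : γ = γn + (⟪x, d1⟫ • x, ⟪y, d2⟫ • y) := by
    refine Prod.ext ?_ ?_
    · show γ.1 = H758H.cr (symL w k) x2 + (⟪x2, d1⟫ • x2 + -((-⟪k, d1⟫) • k)) + ⟪x, d1⟫ • x
      have h1 : γ.1 = H758H.cr (symL w k) x2 + d1 := by rw [hd1]; abel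
      rw [h1]
      nth_rewrite 1 [hd1']
      rw [neg_smul, neg_neg]
      abel
    · show γ.2 = -H758H.cr (symL w m) y2 + (⟪y2, d2⟫ • y2 + -((-⟪m, d2⟫) • m)) + ⟪y, d2⟫ • y
      have h1 : γ.2 = -H758H.cr (symL w m) y2 + d2 := by rw [hd2]; abel
      rw [h1]
      nth_rewrite 1 [hd2']
      rw [neg_smul, neg_neg]
      abel
  have hPγ : H902HO.PP (opsV (symL w) (symL q) v) e l (x, y) (ca • x2, sa • m) (sb • k, cb • y2) γ =
      H902HO.PP (opsV (symL w) (symL q) v) e l (x, y) (ca • x2, sa • m) (sb • k, cb • y2) γn := by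
    conv_lhs => rw [eγ]
    exact PP_normal (symL w) (symL q) v e l (x, y) _ _ γn _ _
  rw [ea, eb, hPγ]
  -- coordinates
  have hfr : IsFrame (tv x) (tv x2) (tv k) := isFrame_cr hx hk hxk
  have H := HOM (Wf := symL w) (Qf := symL q) (w := w) (q := q) (v := v) (tv_symL w) (tv_symL q) hfr
  have hO : opsV (symL w) (symL q) v = OV (symL w) (symL q) v := rfl
  have hmap := H.map_PP e l (x, y) (ca • x2, sa • m) (sb • k, cb • y2) γn
  rw [← hO] at hmap
  rw [show (id : ℝ → ℝ) (H902HO.PP (opsV (symL w) (symL q) v) e l (x, y) (ca • x2, sa • m)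
    (sb • k, cb • y2) γn) = H902HO.PP (opsV (symL w) (symL q) v) e l (x, y) (ca • x2, sa • m)
    (sb • k, cb • y2) γn from rfl] at hmap
  rw [hmap]
  obtain ⟨f1, f2, f3⟩ := frV_frame hfr
  have P : ∀ u, Phi x x2 k u = frV (tv u) (tv x) (tv x2) (tv k) := Phi_eq x x2 k
  have p1 : Phi x x2 k x = ⟨1, 0, 0⟩ := by rw [P]; exact f1
  have p2 : Phi x x2 k x2 = ⟨0, 1, 0⟩ := by rw [P]; exact f2
  have p3 : Phi x x2 k k = ⟨0, 0, 1⟩ := by rw [P]; exact f3
  have hWk : ∀ u, Phi x x2 k (symL w u) =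
      (frS w (tv x) (tv x2) (tv k)).ap (Phi x x2 k u) := fun u => H.W u
  have hcrP : ∀ a b, Phi x x2 k (H758H.cr a b) = T.cr (Phi x x2 k a) (Phi x x2 k b) :=
    fun a b => H.cr a b
  unfold H902HO.PPn
  rw [← P y, ← P y2, ← P m]
  have g1 : H902HO.OHom.mp (Phi x x2 k) (x, y) = (⟨1, 0, 0⟩, Phi x x2 k y) :=
    Prod.ext p1 rfl
  have g2 : H902HO.OHom.mp (Phi x x2 k) (ca • x2, sa • m) =
      (ca • (⟨0, 1, 0⟩ : T ℝ), sa • Phi x x2 k m) := by
    refine Prod.ext ?_ ?_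
    · show Phi x x2 k (ca • x2) = _
      rw [H.smul, p2]; rfl
    · show Phi x x2 k (sa • m) = _
      rw [H.smul]; rfl
  have g3 : H902HO.OHom.mp (Phi x x2 k) (sb • k, cb • y2) =
      (sb • (⟨0, 0, 1⟩ : T ℝ), cb • Phi x x2 k y2) := by
    refine Prod.ext ?_ ?_
    · show Phi x x2 k (sb • k) = _
      rw [H.smul, p3]; rfl
    · show Phi x x2 k (cb • y2) = _
      rw [H.smul]; rfl
  have g4 : H902HO.OHom.mp (Phi x x2 k) γn =
      (T.cr ((frS w (tv x) (tv x2) (tv k)).ap ⟨0, 0, 1⟩) ⟨0, 1, 0⟩ +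
        (⟪x2, d1⟫ • (⟨0, 1, 0⟩ : T ℝ) + -((-⟪k, d1⟫) • (⟨0, 0, 1⟩ : T ℝ))),
        -T.cr ((frS w (tv x) (tv x2) (tv k)).ap (Phi x x2 k m)) (Phi x x2 k y2) +
        (⟪y2, d2⟫ • Phi x x2 k y2 + -((-⟪m, d2⟫) • Phi x x2 k m))) := by
    refine Prod.ext ?_ ?_
    · show Phi x x2 k (H758H.cr (symL w k) x2 + (⟪x2, d1⟫ • x2 + -((-⟪k, d1⟫) • k))) = _
      rw [H.vadd, H.vadd, H.vneg, H.smul, H.smul, hcrP, hWk, p2, p3]
      rfl
    · show Phi x x2 k (-H758H.cr (symL w m) y2 + (⟪y2, d2⟫ • y2 + -((-⟪m, d2⟫) • m))) = _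
      rw [H.vadd, H.vadd, H.vneg, H.vneg, H.smul, H.smul, hcrP, hWk]
      rfl
  rw [g1, g2, g3, g4]
  rfl

/-- **GLUE** -/
theorem hopfYes_of_goal (hG : H902HO.St_GOAL) : Pool.Agent.H893R5.HO.HopfYes := by
  obtain ⟨μ₀, hμ₀, hG⟩ := hG
  obtain ⟨ε₀, hε₀, hG⟩ := hG (min μ₀ (1 / 2)) (by positivity) (min_le_left _ _)
  set μ := min μ₀ (1 / 2) with hμ
  have hμ0 : 0 < μ := by rw [hμ]; positivity
  have hμ1 : μ ≤ 1 / 2 := min_le_right _ _
  set ε := min ε₀ (min (1 / 4) μ) with hε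
  have hε0 : 0 < ε := by rw [hε]; positivity
  have hε1 : ε ≤ ε₀ := min_le_left _ _
  have hε2 : ε ≤ min (1 / 4) μ := min_le_right _ _
  have hG' := hG ε hε0 hε1
  have hcom : Cometric (H758H.WK (KV (symL (W0 μ)) (symL Q0) (vt v0) ε
      (1 / 128 / μ ^ 2 * ε ^ 2))) := by
    have ht : ∀ (w : Sym ℝ) (s : V3), symL w s = vt (w.ap (tv s)) := fun w s => rfl
    refine H640HO.cometric_of hμ0 hμ1 hε0 hε2 rfl (symL (W0 μ)) (symL Q0) (vt v0)
      ?_ ?_ ?_ ?_ ?_ ?_ ?_ ?_ ?_ _ (H758H.contDiff_Kaff _ _) (fun z u => KV_apply _ _ _ _ _ z u)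
    · intro s; rw [ht]; simp [vt, tv, Sym.ap, W0]
    · intro s; rw [ht]; simp [vt, tv, Sym.ap, W0]
    · intro s; rw [ht]; simp [vt, tv, Sym.ap, W0]
    · intro s; rw [ht]; simp [vt, tv, Sym.ap, Q0]
    · intro s; rw [ht]; simp [vt, tv, Sym.ap, Q0]
    · intro s; rw [ht]; simp [vt, tv, Sym.ap, Q0]
    · simp [vt, v0]
    · simp [vt, v0]
    · simp [vt, v0]
  refine H758H.hopfYes_nf hcom ?_
  intro x y k m ca sa cb sb γ hx hy hk hm hxk hym h1 h2 h3 h4 h5 h6 _ _ _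
  obtain ⟨g1, g2, g3, g4, hPP⟩ := PP_eq_PPn (W0 μ) Q0 (vt v0) ε (1 / 128 / μ ^ 2 * ε ^ 2) hx hy hk hm
    hxk hym ca sa cb sb γ
  have hfx : IsFrame (tv x) (tv (H758H.cr k x)) (tv k) := isFrame_cr hx hk hxk
  have hfy : IsFrame (tv y) (tv (H758H.cr m y)) (tv m) := isFrame_cr hy hm hym
  have hz : 0 ≤ (frV (tv m) (tv x) (tv (H758H.cr k x)) (tv k)).z := by
    show 0 ≤ T.dot (tv k) (tv m)
    rw [← tv_dot]; exact h6
  have hpos := hG' (tv x) (tv (H758H.cr k x)) (tv k)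
    (frV (tv y) (tv x) (tv (H758H.cr k x)) (tv k))
    (frV (tv (H758H.cr m y)) (tv x) (tv (H758H.cr k x)) (tv k))
    (frV (tv m) (tv x) (tv (H758H.cr k x)) (tv k)) ca sa cb sb g1 g2 g3 g4 hfx
    (isFrame_frV hfx hfy) h1 h2 h3 h4 h5 hz
  rw [tv_vt] at hPP
  rw [← hPP, ← bridge (symL (W0 μ)) (symL Q0) (vt v0) ε (1 / 128 / μ ^ 2 * ε ^ 2)
    (symL_symm (W0 μ)) (symL_symm Q0)] at hpos
  linarith

end H989H
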