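import Pool.Agent.H902R2.HO.Alg
import Pool.Agent.H758R2.HO.Com

/-!
ROOM HO (helper989), BR: the polynomial `PP` of helper902 is four times the curvature expression
`Pexp` of the cometric with matrix
`(L, M) ↦ (L + W(L+M) + l Q L + e ⟨M,x⟩ v, M + W(L+M) + e ⟨L,v⟩ x)` in the momenta.
-/

open Metric
open scoped Topology ContDiff RealInnerProductSpace

noncomputable section

namespace H989H

open Pool.Agent.H821R3 H907H

/-- the constant part of the matrix -/
def AW (W Q : V3 →L[ℝ] V3) (l : ℝ) : A6 →L[ℝ] A6 :=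
  (ContinuousLinearMap.fst ℝ V3 V3 +
      W.comp (ContinuousLinearMap.fst ℝ V3 V3 + ContinuousLinearMap.snd ℝ V3 V3) +
      l • Q.comp (ContinuousLinearMap.fst ℝ V3 V3)).prod
    (ContinuousLinearMap.snd ℝ V3 V3 +
      W.comp (ContinuousLinearMap.fst ℝ V3 V3 + ContinuousLinearMap.snd ℝ V3 V3))

/-- the linear part of the matrix, as a bilinear map -/
def TVl (v : V3) (e : ℝ) : A6 →ₗ[ℝ] A6 →ₗ[ℝ] A6 :=
  LinearMap.mk₂ ℝ (fun z u => ((e * ⟪u.2, z.1⟫) • v, (e * ⟪u.1, v⟫) • z.1))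
    (fun z z' u => by
      refine Prod.ext ?_ ?_
      · simp only [Prod.fst_add, inner_add_right]
        rw [mul_add, add_smul]
      · simp only [Prod.snd_add, Prod.fst_add, smul_add])
    (fun c z u => by
      refine Prod.ext ?_ ?_
      · simp only [Prod.smul_fst, inner_smul_right, smul_smul]
        congr 1; ring
      · simp only [Prod.smul_snd, Prod.smul_fst, smul_smul]
        congr 1; ring)
    (fun z u u' => by
      refine Prod.ext ?_ ?_
      · simp only [Prod.fst_add, Prod.snd_add, inner_add_left]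
        rw [mul_add, add_smul]
      · simp only [Prod.snd_add, Prod.fst_add, inner_add_left]
        rw [mul_add, add_smul])
    (fun c z u => by
      refine Prod.ext ?_ ?_
      · simp only [Prod.smul_snd, Prod.smul_fst, inner_smul_left, smul_smul]
        congr 1
        simp only [conj_trivial]; ring
      · simp only [Prod.smul_fst, Prod.smul_snd, inner_smul_left, smul_smul]
        congr 1
        simp only [conj_trivial]; ring)

/-- the linear part of the matrix, as a continuous bilinear map -/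
def TV (v : V3) (e : ℝ) : A6 →L[ℝ] A6 →L[ℝ] A6 :=
  LinearMap.toContinuousLinearMap
    ((LinearMap.toContinuousLinearMap : (A6 →ₗ[ℝ] A6) ≃ₗ[ℝ] (A6 →L[ℝ] A6)).toLinearMap ∘ₗ TVl v e)

@[simp] theorem AW_apply (W Q : V3 →L[ℝ] V3) (l : ℝ) (u : A6) :
    AW W Q l u = (u.1 + W (u.1 + u.2) + l • Q u.1, u.2 + W (u.1 + u.2)) := rfl

@[simp] theorem TV_apply (v : V3) (e : ℝ) (z u : A6) :
    TV v e z u = ((e * ⟪u.2, z.1⟫) • v, (e * ⟪u.1, v⟫) • z.1) := rfl

/-- the matrix of the cometric -/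
def KV (W Q : V3 →L[ℝ] V3) (v : V3) (e l : ℝ) (z : A6) : A6 →L[ℝ] A6 :=
  H758H.Kaff (AW W Q l) (TV v e) z

theorem KV_apply (W Q : V3 →L[ℝ] V3) (v : V3) (e l : ℝ) (z u : A6) :
    KV W Q v e l z u = (u.1 + W (u.1 + u.2) + l • Q u.1 + (e * ⟪u.2, z.1⟫) • v,
      u.2 + W (u.1 + u.2) + (e * ⟪u.1, v⟫) • z.1) := rfl

/-- the operations -/
def opsV (W Q : V3 →L[ℝ] V3) (v : V3) : H902HO.Ops ℝ V3 where
  dot a b := ⟪a, b⟫
  cr := H758H.cr
  W := W
  Q := Q
  v := v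

section

variable (W Q : V3 →L[ℝ] V3) (v : V3) (e l : ℝ)

theorem b_pr (a b : A6) : H902HO.pr (opsV W Q v) a b = pr a b := rfl

theorem b_J (a b : A6) : H902HO.J (opsV W Q v) a b = H758H.J a b := rfl

theorem b_K (z u : A6) : H902HO.K (opsV W Q v) e l z u = KV W Q v e l z u := rfl

theorem b_K1 (z u : A6) : H902HO.K1 (opsV W Q v) e z u = TV v e z u := rfl

theorem b_Wz (z a : A6) : H902HO.Wz (opsV W Q v) e l z a = H758H.WK (KV W Q v e l) z a := rfl

theorem b_W1 (z ζ a : A6) : H902HO.W1 (opsV W Q v) e l z ζ a =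
    H758H.W1 (KV W Q v e l) (fun _ => TV v e) z ζ a := rfl

theorem b_F1 (c d z ζ : A6) : H902HO.F1 (opsV W Q v) e l c d z ζ =
    H758H.F1 (KV W Q v e l) (fun _ => TV v e) c d z ζ := rfl

theorem b_F2 (c d z ζ η θ : A6) : H902HO.F2 (opsV W Q v) e l c d z ζ η θ =
    H758H.F2 (KV W Q v e l) (fun _ => TV v e) (fun _ => 0) c d z ζ η θ := by
  have h0 : pr (H758H.J z c) ((0 : A6 →L[ℝ] A6 →L[ℝ] A6 →L[ℝ] A6) η ζ (H758H.J z d)) = 0 := by
    simp [pr]
  unfold H758H.F2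
  rw [h0, ← b_F1 W Q v e l]
  unfold H902HO.F2
  simp only [b_pr, b_J, b_K, b_K1]
  ring

theorem pr_cr_left (ζ c u : A6) : pr (H758H.J ζ c) u = pr (H758H.J c u) ζ := by
  simp only [pr, H758H.inner3, H758H.J_fst, H758H.J_snd, H758H.cr0, H758H.cr1, H758H.cr2]
  ring

theorem KV_symm (hW : ∀ a b, ⟪W a, b⟫ = ⟪a, W b⟫) (hQ : ∀ a b, ⟪Q a, b⟫ = ⟪a, Q b⟫) (z a b : A6) :
    pr (KV W Q v e l z a) b = pr a (KV W Q v e l z b) := by
  simp only [pr, KV_apply, inner_add_left, inner_add_right, inner_smul_left, inner_smul_right,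
    conj_trivial, map_add]
  have h1 : ∀ a b : V3, ⟪b, a⟫ = ⟪a, b⟫ := fun a b => real_inner_comm a b
  rw [← hW a.1 b.1, ← hW a.1 b.2, ← hW a.2 b.1, ← hW a.2 b.2, ← hQ a.1 b.1, h1 b.1 v, h1 b.2 z.1]
  ring

/-- the gradient -/
theorem F1_eq_grad (hW : ∀ a b, ⟪W a, b⟫ = ⟪a, W b⟫) (hQ : ∀ a b, ⟪Q a, b⟫ = ⟪a, Q b⟫)
    (c d z ζ : A6) : H902HO.F1 (opsV W Q v) e l c d z ζ =
      pr (H902HO.grad (opsV W Q v) e l c d z) ζ := by
  have e1 : pr (H758H.J ζ c) (KV W Q v e l z (H758H.J z d)) =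
      pr (H758H.J c (KV W Q v e l z (H758H.J z d))) ζ := pr_cr_left _ _ _
  have e3 : pr (H758H.J z c) (KV W Q v e l z (H758H.J ζ d)) =
      pr (H758H.J d (KV W Q v e l z (H758H.J z c))) ζ := by
    rw [← KV_symm W Q v e l hW hQ, H907H.pr_comm, pr_cr_left]
  have e2 : pr (H758H.J z c) (TV v e ζ (H758H.J z d)) =
      ⟪(e * ⟪(H758H.J z c).1, v⟫) • (H758H.J z d).2 + (e * ⟪(H758H.J z d).1, v⟫) •
        (H758H.J z c).2, ζ.1⟫ := by
    simp only [pr, TV_apply, inner_add_left, inner_smul_left, inner_smul_right, conj_trivial]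
    ring
  have hF : H902HO.F1 (opsV W Q v) e l c d z ζ =
      pr (H758H.J ζ c) (KV W Q v e l z (H758H.J z d)) + pr (H758H.J z c) (TV v e ζ (H758H.J z d)) +
        pr (H758H.J z c) (KV W Q v e l z (H758H.J ζ d)) := rfl
  rw [hF, e1, e2, e3]
  have hg : H902HO.grad (opsV W Q v) e l c d z =
      ((H758H.J c (KV W Q v e l z (H758H.J z d))).1 + (H758H.J d (KV W Q v e l z (H758H.J z c))).1 +
        ((e * ⟪(H758H.J z c).1, v⟫) • (H758H.J z d).2 + (e * ⟪(H758H.J z d).1, v⟫) •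
        (H758H.J z c).2),
        (H758H.J c (KV W Q v e l z (H758H.J z d))).2 +
          (H758H.J d (KV W Q v e l z (H758H.J z c))).2) := rfl
  rw [hg]
  simp only [pr]
  rw [inner_add_left (_ + _), inner_add_left (H758H.J c _).1, inner_add_left (H758H.J c _).2]
  ring

theorem rot_eq (hW : ∀ a b, ⟪W a, b⟫ = ⟪a, W b⟫) (hQ : ∀ a b, ⟪Q a, b⟫ = ⟪a, Q b⟫)
    (c d z : A6) : H758H.rot (H758H.F1 (KV W Q v e l) (fun _ => TV v e) c d z) z =
      H758H.J z (H902HO.grad (opsV W Q v) e l c d z) := by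
  set G := H902HO.grad (opsV W Q v) e l c d z with hG
  have h : ∀ ρ : A6, H758H.F1 (KV W Q v e l) (fun _ => TV v e) c d z (H758H.J ρ z) =
      pr (H758H.J z G) ρ := by
    intro ρ
    rw [← b_F1 W Q v e l, F1_eq_grad W Q v e l hW hQ, ← hG]
    simp only [pr, H758H.inner3, H758H.J_fst, H758H.J_snd, H758H.cr0, H758H.cr1, H758H.cr2]
    ring
  refine Prod.ext (H758H.ext3 ?_ ?_ ?_) (H758H.ext3 ?_ ?_ ?_)
  · refine (h (H758H.e1 0)).trans ?_; simp [pr, H758H.inner3, H758H.e1]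
  · refine (h (H758H.e1 1)).trans ?_; simp [pr, H758H.inner3, H758H.e1]
  · refine (h (H758H.e1 2)).trans ?_; simp [pr, H758H.inner3, H758H.e1]
  · refine (h (H758H.e2 0)).trans ?_; simp [pr, H758H.inner3, H758H.e2]
  · refine (h (H758H.e2 1)).trans ?_; simp [pr, H758H.inner3, H758H.e2]
  · refine (h (H758H.e2 2)).trans ?_; simp [pr, H758H.inner3, H758H.e2]

/-- **BR**: the polynomial is four times the curvature expression. -/
theorem bridge (hW : ∀ a b, ⟪W a, b⟫ = ⟪a, W b⟫) (hQ : ∀ a b, ⟪Q a, b⟫ = ⟪a, Q b⟫)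
    (z a b γ : A6) : 4 * Pexp (H758H.WK (KV W Q v e l)) z a b γ =
      H902HO.PP (opsV W Q v) e l z a b γ := by
  have h1 : Pexp (H758H.WK (KV W Q v e l)) z a b γ =
      H758H.PK (KV W Q v e l) (fun _ => TV v e) (fun _ => 0) z a b γ :=
    H758H.Pexp_aff (AW W Q l) (TV v e) z a b γ
  rw [h1]
  unfold H758H.PK H902HO.PP H902HO.two H902HO.three
  rw [rot_eq W Q v e l hW hQ, rot_eq W Q v e l hW hQ, rot_eq W Q v e l hW hQ]
  simp only [b_pr, b_J, b_K, b_Wz, b_W1, b_F2]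
  have h2 : ∀ p q : A6, pr γ (p - q) = pr γ p - pr γ q := by
    intro p q
    rw [← H758H.prB_apply, ← H758H.prB_apply, ← H758H.prB_apply, map_sub]
  rw [h2]
  ring

end

end H989H
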